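import Pool.Agent.H95.CF.T3

/-!
# Complete family, row IDP: the recursion for the number of ideals of norm `n`
-/

set_option autoImplicit false

open NumberField Module MeasureTheory Set Filter
open scoped nonZeroDivisors Real

namespace Pool.Agent.H9.CF

open Pool.Agent.H31.CN Pool.Agent.H65.CF Pool.Agent.H95.CF

section

variable (K : Type) [Field K] [NumberField K]

/-- the ideals of norm `n` -/
def Sn (n : ℕ) : Set (Ideal (𝓞 K)) := {J | Ideal.absNorm J = n}

theorem aI_ncard (n : ℕ) : aI K n = (Sn K n).ncard := rfl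

theorem Sn_fin (n : ℕ) : (Sn K n).Finite := Ideal.finite_setOfPred_absNorm_eq n

theorem card_mul (P : Ideal (𝓞 K)) (q m : ℕ) (hP : Ideal.absNorm P = q) (hq : 0 < q) :
    {J : Ideal (𝓞 K) | Ideal.absNorm J = q * m ∧ P ∣ J}.ncard = (Sn K m).ncard := by
  have hP0 : P ≠ 0 := by
    rintro rfl
    rw [← hP] at hq
    simp at hq
  have hinj : Function.Injective (fun J : Ideal (𝓞 K) => P * J) :=
    fun J J' h => mul_left_cancel₀ hP0 h
  have himg : {J : Ideal (𝓞 K) | Ideal.absNorm J = q * m ∧ P ∣ J} =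
      (fun J : Ideal (𝓞 K) => P * J) '' Sn K m := by
    ext J
    constructor
    · rintro ⟨h1, R, rfl⟩
      refine ⟨R, ?_, rfl⟩
      rw [map_mul, hP] at h1
      exact Nat.eq_of_mul_eq_mul_left hq h1
    · rintro ⟨R, hR, rfl⟩
      refine ⟨?_, dvd_mul_right _ _⟩
      have hR' : Ideal.absNorm R = m := hR
      change Ideal.absNorm (P * R) = q * m
      rw [map_mul, hP, hR']
  rw [himg, Set.ncard_image_of_injective _ hinj]

end

/-- **IDP.** -/
theorem pf_IDP (hPFD : T_PFD) : T_IDP := by
  intro D K _ _ hD hFd hfin hdis p n hp hn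
  classical
  obtain ⟨hap, hch⟩ := hPFD D K hD hFd hfin hdis p hp
  have hr2 : Module.finrank ℤ (𝓞 K) = 2 := by rw [RingOfIntegers.rank, hfin]
  have hpp : 0 < p := hp.pos
  set Sp : Ideal (𝓞 K) := Ideal.span {(p : 𝓞 K)} with hSp
  have hSpn : Ideal.absNorm Sp = p ^ 2 := by
    rw [hSp, Ideal.absNorm_span_natCast, hr2]
  -- ideals of norm p divide Sp
  have hdvd : ∀ P : Ideal (𝓞 K), Ideal.absNorm P = p → P ∣ Sp := by
    intro P hP
    rw [hSp, Ideal.dvd_span_singleton, ← hP]
    exact Ideal.absNorm_mem P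
  have hprime : ∀ P : Ideal (𝓞 K), Ideal.absNorm P = p → P.IsPrime := by
    intro P hP
    refine Ideal.isPrime_of_irreducible_absNorm ?_
    rw [hP]
    exact hp
  -- a prime over p
  have hover : ∀ J : Ideal (𝓞 K), p ∣ Ideal.absNorm J → ∃ P : Ideal (𝓞 K), P.IsMaximal ∧ P ∣ J ∧
      P ∣ Sp ∧ (Ideal.absNorm P = p ∨ P = Sp) := by
    intro J hJ
    obtain ⟨P, hPm, hPu, hPJ⟩ := Ideal.exists_isMaximal_dvd_of_dvd_absNorm' hp J hJ
    have hmem : (p : 𝓞 K) ∈ P := by
      have h1 : (p : ℤ) ∈ P.under ℤ := by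
        rw [hPu]
        exact Ideal.mem_span_singleton_self _
      have h2 := Ideal.mem_comap.1 h1
      simpa using h2
    have hPS : P ∣ Sp := by
      rw [hSp, Ideal.dvd_span_singleton]
      exact hmem
    refine ⟨P, hPm, hPJ, hPS, ?_⟩
    obtain ⟨R, hR⟩ := hPS
    have h3 : Ideal.absNorm P ∣ p ^ 2 := by
      rw [← hSpn, hR, map_mul]
      exact dvd_mul_right _ _
    obtain ⟨k, hk, hk2⟩ := (Nat.dvd_prime_pow hp).1 h3
    interval_cases k
    · exfalso
      rw [pow_zero, Ideal.absNorm_eq_one_iff] at hk2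
      exact hPm.ne_top hk2
    · left
      rw [hk2, pow_one]
    · right
      have h4 : Ideal.absNorm R = 1 := by
        have h5 := congrArg Ideal.absNorm hR
        rw [map_mul, hSpn, hk2] at h5
        have h6 : 0 < p ^ 2 := by positivity
        exact Nat.eq_of_mul_eq_mul_left h6 (by rw [← h5, mul_one])
      rw [Ideal.absNorm_eq_one_iff] at h4
      rw [hR, h4, Ideal.mul_top]
  -- the ideals divisible by Sp
  have hD2 : {J : Ideal (𝓞 K) | Ideal.absNorm J = p * n ∧ Sp ∣ J}.ncard =
      if p ∣ n then (Sn K (n / p)).ncard else 0 := by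
    split_ifs with hpn
    · obtain ⟨m, rfl⟩ := hpn
      rw [Nat.mul_div_cancel_left _ hpp]
      have h1 : p * (p * m) = p ^ 2 * m := by ring
      rw [h1]
      exact card_mul K Sp (p ^ 2) m hSpn (by positivity)
    · have h1 : {J : Ideal (𝓞 K) | Ideal.absNorm J = p * n ∧ Sp ∣ J} = ∅ := by
        rw [Set.eq_empty_iff_forall_notMem]
        rintro J ⟨h2, R, rfl⟩
        rw [map_mul, hSpn] at h2
        apply hpn
        refine ⟨Ideal.absNorm R, ?_⟩
        have h3 : p * n = p * (p * Ideal.absNorm R) := by rw [← h2]; ring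
        exact Nat.eq_of_mul_eq_mul_left hpp h3
      rw [h1, Set.ncard_empty]
  have hfinS : (Sn K (p * n)).Finite := Sn_fin K _
  rw [aI_ncard, aI_ncard, aI_ncard]
  rw [aI_ncard] at hap
  have hgoal : (((if p ∣ n then (Sn K (n / p)).ncard else 0 : ℕ)) : ℤ) =
      (if p ∣ n then (((Sn K (n / p)).ncard : ℕ) : ℤ) else 0) := by
    split_ifs <;> simp
  rcases hch with h | h | h
  · -- two prime ideals
    rw [h] at hap ⊢
    have h2 : (Sn K p).ncard = 2 := by
      have : (((Sn K p).ncard : ℕ) : ℤ) = 2 := by rw [hap]; norm_num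
      exact_mod_cast this
    obtain ⟨P, P', hne, hPP⟩ := Set.ncard_eq_two.1 h2
    have hP : Ideal.absNorm P = p := by
      have : P ∈ Sn K p := by rw [hPP]; simp
      exact this
    have hP' : Ideal.absNorm P' = p := by
      have : P' ∈ Sn K p := by rw [hPP]; simp
      exact this
    have hP0 : P ≠ 0 := by
      rintro rfl
      simp at hP
      omega
    have hP'0 : P' ≠ 0 := by
      rintro rfl
      simp at hP'
      omega
    have hPi : Prime P := Ideal.prime_of_isPrime hP0 (hprime P hP)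
    have hPi' : Prime P' := Ideal.prime_of_isPrime hP'0 (hprime P' hP')
    have hnd : ¬ P' ∣ P := by
      intro h3
      exact hne (associated_iff_eq.1 ((hPi'.dvd_prime_iff_associated hPi).1 h3)).symm
    have hprod : ∀ J : Ideal (𝓞 K), P ∣ J → P' ∣ J → P * P' ∣ J := by
      rintro J ⟨R, rfl⟩ h4
      rcases hPi'.dvd_or_dvd h4 with h5 | h5
      · exact absurd h5 hnd
      · exact mul_dvd_mul_left P h5
    have hSpP : Sp = P * P' := by
      obtain ⟨R, hR⟩ := hprod Sp (hdvd P hP) (hdvd P' hP')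
      have h4 : Ideal.absNorm R = 1 := by
        have h5 := congrArg Ideal.absNorm hR
        rw [map_mul, map_mul, hSpn, hP, hP'] at h5
        have h6 : 0 < p ^ 2 := by positivity
        exact Nat.eq_of_mul_eq_mul_left h6 (by rw [mul_one]; rw [sq] at h5 ⊢; exact h5.symm)
      rw [Ideal.absNorm_eq_one_iff] at h4
      rw [hR, h4, Ideal.mul_top]
    have hunion : Sn K (p * n) = {J : Ideal (𝓞 K) | Ideal.absNorm J = p * n ∧ P ∣ J} ∪
        {J : Ideal (𝓞 K) | Ideal.absNorm J = p * n ∧ P' ∣ J} := by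
      ext J
      constructor
      · intro hJ
        have hJ' : Ideal.absNorm J = p * n := hJ
        obtain ⟨R, hRm, hRJ, hRS, hR⟩ := hover J (by rw [hJ']; exact dvd_mul_right _ _)
        rcases hR with hR | hR
        · have : R ∈ Sn K p := hR
          rw [hPP] at this
          rcases this with rfl | h6
          · exact Or.inl ⟨hJ', hRJ⟩
          · rw [Set.mem_singleton_iff] at h6
            subst h6
            exact Or.inr ⟨hJ', hRJ⟩
        · left
          refine ⟨hJ', ?_⟩
          exact (hdvd P hP).trans (hR ▸ hRJ)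
      · rintro (hJ | hJ)
        · exact hJ.1
        · exact hJ.1
    have hinter : {J : Ideal (𝓞 K) | Ideal.absNorm J = p * n ∧ P ∣ J} ∩
        {J : Ideal (𝓞 K) | Ideal.absNorm J = p * n ∧ P' ∣ J} =
        {J : Ideal (𝓞 K) | Ideal.absNorm J = p * n ∧ Sp ∣ J} := by
      ext J
      constructor
      · rintro ⟨h5, h6⟩
        exact ⟨h5.1, by rw [hSpP]; exact hprod J h5.2 h6.2⟩
      · rintro ⟨h5, h6⟩
        exact ⟨⟨h5, (hdvd P hP).trans h6⟩, ⟨h5, (hdvd P' hP').trans h6⟩⟩
    have hf1 : {J : Ideal (𝓞 K) | Ideal.absNorm J = p * n ∧ P ∣ J}.Finite :=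
      hfinS.subset fun J hJ => hJ.1
    have hf2 : {J : Ideal (𝓞 K) | Ideal.absNorm J = p * n ∧ P' ∣ J}.Finite :=
      hfinS.subset fun J hJ => hJ.1
    have hcard := Set.ncard_union_add_ncard_inter _ _ hf1 hf2
    rw [← hunion, hinter, hD2, card_mul K P p n hP hpp, card_mul K P' p n hP' hpp] at hcard
    have hcard' : (((Sn K (p * n)).ncard : ℕ) : ℤ) +
        (((if p ∣ n then (Sn K (n / p)).ncard else 0 : ℕ)) : ℤ) =
        (((Sn K n).ncard : ℕ) : ℤ) + (((Sn K n).ncard : ℕ) : ℤ) := by exact_mod_cast hcard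
    rw [hgoal] at hcard'
    linarith
  · -- one prime ideal
    rw [h] at hap ⊢
    have h2 : (Sn K p).ncard = 1 := by
      have : (((Sn K p).ncard : ℕ) : ℤ) = 1 := by rw [hap]; norm_num
      exact_mod_cast this
    obtain ⟨P, hPP⟩ := Set.ncard_eq_one.1 h2
    have hP : Ideal.absNorm P = p := by
      have : P ∈ Sn K p := by rw [hPP]; simp
      exact this
    have hS : Sn K (p * n) = {J : Ideal (𝓞 K) | Ideal.absNorm J = p * n ∧ P ∣ J} := by
      ext J
      constructor
      · intro hJ
        have hJ' : Ideal.absNorm J = p * n := hJ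
        refine ⟨hJ', ?_⟩
        obtain ⟨R, hRm, hRJ, hRS, hR⟩ := hover J (by rw [hJ']; exact dvd_mul_right _ _)
        rcases hR with hR | hR
        · have : R ∈ Sn K p := hR
          rw [hPP, Set.mem_singleton_iff] at this
          rw [← this]
          exact hRJ
        · exact (hdvd P hP).trans (hR ▸ hRJ)
      · exact fun hJ => hJ.1
    rw [hS, card_mul K P p n hP hpp]
    simp
  · -- no prime ideal
    rw [h] at hap ⊢
    have h2 : (Sn K p).ncard = 0 := by
      have : (((Sn K p).ncard : ℕ) : ℤ) = 0 := by rw [hap]; norm_num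
      exact_mod_cast this
    have hE : Sn K p = ∅ := (Set.ncard_eq_zero (Sn_fin K p)).1 h2
    have hS : Sn K (p * n) = {J : Ideal (𝓞 K) | Ideal.absNorm J = p * n ∧ Sp ∣ J} := by
      ext J
      constructor
      · intro hJ
        have hJ' : Ideal.absNorm J = p * n := hJ
        refine ⟨hJ', ?_⟩
        obtain ⟨R, hRm, hRJ, hRS, hR⟩ := hover J (by rw [hJ']; exact dvd_mul_right _ _)
        rcases hR with hR | hR
        · have : R ∈ Sn K p := hR
          rw [hE] at this
          exact absurd this (Set.notMem_empty _)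
        · exact hR ▸ hRJ
      · exact fun hJ => hJ.1
    rw [hS, hD2, hgoal]
    ring

end Pool.Agent.H9.CF
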