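import Pool.Agent.H95.CF.T3

/-!
# Complete family, row RPN: representations of numbers by the forms of the ideal classes
-/

set_option autoImplicit false

open NumberField Module MeasureTheory Set Filter
open scoped nonZeroDivisors Real

namespace Pool.Agent.H9.CF

open Pool.Agent.H31.CN Pool.Agent.H65.CF Pool.Agent.H95.CF

/-- sums over the non-zero vectors of a family of maps which identify exactly `v` and `-v` -/
theorem sum_pairs {ι G : Type*} [Fintype G] (cl : ι → G) (b : G → ℤ × ℤ → ι)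
    (h1 : ∀ c v, v ≠ 0 → cl (b c v) = c)
    (h2 : ∀ J, ∃ v, v ≠ 0 ∧ b (cl J) v = J)
    (h3 : ∀ c v v', v ≠ 0 → v' ≠ 0 → (b c v = b c v' ↔ v' = v ∨ v' = -v))
    (W : ι → ℝ) (hW : ∀ J, 0 ≤ W J) (S : ℝ) (hS : HasSum W S) :
    HasSum (fun x : G × {v : ℤ × ℤ // v ≠ 0} => W (b x.1 x.2)) (2 * S) := by
  classical
  set β : G × {v : ℤ × ℤ // v ≠ 0} → ι := fun x => b x.1 x.2 with hβ
  have hF : ∀ J : ι, HasSum (fun x : {x : G × {v : ℤ × ℤ // v ≠ 0} // β x = J} =>
      W (β x.1)) (2 * W J) := by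
    intro J
    obtain ⟨v0, hv0, hb0⟩ := h2 J
    have hn : -v0 ≠ 0 := neg_ne_zero.mpr hv0
    have hb1 : b (cl J) (-v0) = J := by
      rw [← (h3 (cl J) v0 (-v0) hv0 hn).mpr (Or.inr rfl)]
      exact hb0
    have hne : v0 ≠ -v0 := by
      intro h5
      apply hv0
      have h6 : v0 + v0 = 0 := by
        nth_rewrite 2 [h5]
        exact add_neg_cancel v0
      have h7 : v0.1 + v0.1 = 0 := congrArg Prod.fst h6
      have h8 : v0.2 + v0.2 = 0 := congrArg Prod.snd h6
      exact Prod.ext (by simp only [Prod.fst_zero]; omega) (by simp only [Prod.snd_zero]; omega)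
    set m : Bool → {x : G × {v : ℤ × ℤ // v ≠ 0} // β x = J} := fun t =>
      if t then ⟨(cl J, ⟨v0, hv0⟩), hb0⟩ else ⟨(cl J, ⟨-v0, hn⟩), hb1⟩ with hm
    have hbij : Function.Bijective m := by
      constructor
      · intro s t hst
        cases s <;> cases t
        · rfl
        · exfalso
          simp only [hm, Bool.false_eq_true, if_false, if_true] at hst
          exact hne (congrArg (fun x => x.1.2.1) hst).symm
        · exfalso
          simp only [hm, Bool.false_eq_true, if_false, if_true] at hst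
          exact hne (congrArg (fun x => x.1.2.1) hst)
        · rfl
      · rintro ⟨⟨c, v, hv⟩, hvJ⟩
        have h5 : b c v = J := hvJ
        have hc : cl J = c := by rw [← h5]; exact h1 c v hv
        subst hc
        rcases (h3 (cl J) v0 v hv0 hv).mp (hb0.trans h5.symm) with h6 | h6
        · exact ⟨true, by subst h6; rfl⟩
        · exact ⟨false, by subst h6; rfl⟩
    rw [← (Equiv.ofBijective m hbij).hasSum_iff]
    have h7 : (fun x : {x : G × {v : ℤ × ℤ // v ≠ 0} // β x = J} => W (β x.1)) ∘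
        (Equiv.ofBijective m hbij) = fun _ => W J := by
      ext t
      exact congrArg W (m t).2
    rw [h7]
    have h8 := hasSum_fintype (fun _ : Bool => W J)
    simpa [two_mul] using h8
  have hsum : Summable (fun y : Σ J : ι, {x : G × {v : ℤ × ℤ // v ≠ 0} // β x = J} =>
      W (β y.2.1)) := by
    rw [summable_sigma_of_nonneg (fun y => hW _)]
    refine ⟨fun J => (hF J).summable, ?_⟩
    simp_rw [fun J => (hF J).tsum_eq]
    exact hS.summable.mul_left 2
  have h9 := HasSum.sigma_of_hasSum (hS.mul_left 2) hF hsum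
  exact (Equiv.sigmaFiberEquiv β).hasSum_iff.mp h9

/-- **RPN.** -/
theorem pf_RPN (hPCT : T_PCT) (hIDN : T_IDN) (hCHM : T_CHM) : T_RPN := by
  intro D K _ _ hD hFd hfin hdis
  classical
  obtain ⟨σ⟩ : Nonempty (K →+* ℂ) := inferInstance
  have hFu : Pool.Agent.H91.CF.Fu D := by
    rcases hFd with h | ⟨m, hm, hsq, h4⟩
    · exact Or.inl h
    · right
      subst hm
      rw [Nat.mul_div_cancel_left _ (by norm_num)]
      exact ⟨dvd_mul_right _ _, hsq, h4⟩
  obtain ⟨Q, I, α, β, b, hFB⟩ := fb_exists D K σ hD hfin hdis (hPCT D hFu).1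
  refine ⟨Q, hFB.fd, ?_⟩
  intro w hw hws
  set W : (Ideal (𝓞 K))⁰ → ℝ := fun J => w (Ideal.absNorm (J : Ideal (𝓞 K))) with hW
  -- the fibres of the norm
  have hfibc : ∀ n : ℕ, Nat.card {J : (Ideal (𝓞 K))⁰ // Ideal.absNorm (J : Ideal (𝓞 K)) = n + 1} =
      aI K (n + 1) := by
    intro n
    unfold aI
    refine Nat.card_congr ?_
    refine ⟨fun J => ⟨J.1.1, J.2⟩, fun J => ⟨⟨J.1, ?_⟩, J.2⟩, fun _ => rfl, fun _ => rfl⟩
    rw [← Ideal.absNorm_ne_zero_iff_mem_nonZeroDivisors, J.2]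
    omega
  have hfibfin : ∀ n : ℕ, Finite {J : (Ideal (𝓞 K))⁰ // Ideal.absNorm (J : Ideal (𝓞 K)) = n} := by
    intro n
    have h1 := Ideal.finite_setOfPred_absNorm_eq (S := 𝓞 K) n
    have h2 : Finite {J : Ideal (𝓞 K) // Ideal.absNorm J = n} := h1.to_subtype
    exact Finite.of_injective
      (fun J => (⟨J.1.1, J.2⟩ : {J : Ideal (𝓞 K) // Ideal.absNorm J = n}))
      (fun J J' h => by
        have h3 : (J.1 : Ideal (𝓞 K)) = (J'.1 : Ideal (𝓞 K)) :=
          congrArg (fun x : {J : Ideal (𝓞 K) // Ideal.absNorm J = n} => (x : Ideal (𝓞 K))) h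
        exact Subtype.ext (Subtype.ext h3))
  have hzero : Nat.card {J : (Ideal (𝓞 K))⁰ // Ideal.absNorm (J : Ideal (𝓞 K)) = 0} = 0 := by
    have : IsEmpty {J : (Ideal (𝓞 K))⁰ // Ideal.absNorm (J : Ideal (𝓞 K)) = 0} := by
      refine ⟨fun J => ?_⟩
      exact Ideal.absNorm_ne_zero_of_nonZeroDivisors J.1 J.2
    exact Nat.card_of_isEmpty
  set g : ℕ → ℝ := fun n =>
    (Nat.card {J : (Ideal (𝓞 K))⁰ // Ideal.absNorm (J : Ideal (𝓞 K)) = n} : ℝ) * w n with hg
  have hg1 : ∀ n, g (n + 1) = aD (n + 1) D * w (n + 1) := by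
    intro n
    simp only [hg]
    rw [hfibc, hIDN D K hD hFd hfin hdis (n + 1) (by omega)]
  have hg0 : g 0 = 0 := by
    simp only [hg]
    rw [hzero]
    simp
  have hgnn : ∀ n, 0 ≤ g n := fun n => mul_nonneg (Nat.cast_nonneg _) (hw n)
  have hgle : ∀ n, g n ≤ ((n : ℝ) + 1) * w n := by
    intro n
    rcases n with _ | n
    · rw [hg0]
      have := hw 0
      positivity
    · rw [hg1]
      refine mul_le_mul_of_nonneg_right ?_ (hw _)
      have h1 := (le_abs_self _).trans (hCHM.2.2.2.2 (n + 1) D)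
      have h2 : ((n + 1).divisors.card : ℝ) ≤ ((n + 1 : ℕ) : ℝ) := by
        exact_mod_cast Nat.card_divisors_le_self (n + 1)
      push_cast at h2 ⊢
      linarith
  have hgs : Summable g := Summable.of_nonneg_of_le hgnn hgle hws
  have hgsum : ∑' n, g n = ∑' n : ℕ, aD (n + 1) D * w (n + 1) := by
    rw [hgs.tsum_eq_zero_add, hg0, zero_add]
    exact tsum_congr hg1
  -- the sum over the ideals
  have hfib : ∀ n : ℕ, HasSum
      (fun J : {J : (Ideal (𝓞 K))⁰ // Ideal.absNorm (J : Ideal (𝓞 K)) = n} => W J.1) (g n) := by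
    intro n
    have := hfibfin n
    have := Fintype.ofFinite {J : (Ideal (𝓞 K))⁰ // Ideal.absNorm (J : Ideal (𝓞 K)) = n}
    have h1 := hasSum_fintype
      (fun J : {J : (Ideal (𝓞 K))⁰ // Ideal.absNorm (J : Ideal (𝓞 K)) = n} => W J.1)
    have h2 : ∑ J : {J : (Ideal (𝓞 K))⁰ // Ideal.absNorm (J : Ideal (𝓞 K)) = n}, W J.1 = g n := by
      simp only [hW, hg]
      rw [Nat.card_eq_fintype_card, Finset.sum_congr rfl (fun J _ => by rw [J.2]),
        Finset.sum_const, nsmul_eq_mul, Finset.card_univ]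
    rw [h2] at h1
    exact h1
  have hWnn : ∀ J, 0 ≤ W J := fun J => hw _
  have hWs : HasSum W (∑' n : ℕ, aD (n + 1) D * w (n + 1)) := by
    have hsum : Summable (fun y : Σ n : ℕ,
        {J : (Ideal (𝓞 K))⁰ // Ideal.absNorm (J : Ideal (𝓞 K)) = n} => W y.2.1) := by
      rw [summable_sigma_of_nonneg (fun y => hWnn _)]
      refine ⟨fun n => (hfib n).summable, ?_⟩
      simp_rw [fun n => (hfib n).tsum_eq]
      exact hgs
    have h9 := HasSum.sigma_of_hasSum hgs.hasSum hfib hsum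
    rw [hgsum] at h9
    exact (Equiv.sigmaFiberEquiv
      (fun J : (Ideal (𝓞 K))⁰ => Ideal.absNorm (J : Ideal (𝓞 K)))).hasSum_iff.mp h9
  -- the vectors
  have hP := sum_pairs (fun J : (Ideal (𝓞 K))⁰ => ClassGroup.mk0 J) b hFB.cls hFB.sur hFB.eqv
    W hWnn _ hWs
  have hval : ∀ c v, v ≠ 0 → w (val (Q c) v).toNat = W (b c v) := by
    intro c v hv
    rw [← hFB.nrm c v hv, Int.toNat_natCast]
  have hc : ∀ c, Summable (fun v : {v : ℤ × ℤ // v ≠ 0} => W (b c v)) := fun c =>
    hP.summable.prod_factor c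
  have hind : ∀ c, (fun v : ℤ × ℤ => if v = 0 then 0 else w (val (Q c) v).toNat) =
      ({v : ℤ × ℤ | v ≠ 0}).indicator (fun v => W (b c v)) := by
    intro c
    ext v
    by_cases hv : v = 0
    · simp [hv]
    · rw [if_neg hv, hval c v hv, Set.indicator_of_mem (show v ∈ {v : ℤ × ℤ | v ≠ 0} from hv)]
  refine ⟨fun c => ?_, ?_⟩
  · rw [hind c, ← summable_subtype_iff_indicator]
    exact hc c
  · have h1 : ∀ c, ∑' v : ℤ × ℤ, (if v = 0 then 0 else w (val (Q c) v).toNat) =
        ∑' v : {v : ℤ × ℤ // v ≠ 0}, W (b c v) := by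
      intro c
      rw [hind c]
      exact (tsum_subtype {v : ℤ × ℤ | v ≠ 0} (fun v => W (b c v))).symm
    simp_rw [h1]
    rw [← hP.tsum_eq, hP.summable.tsum_prod, tsum_fintype]

end Pool.Agent.H9.CF
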