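import Pool.Agent.H95.CF.Targets
import Pool.Agent.H16.CN.CG

/-!
# Complete family, section 2, row LFN: the L-functions of the ring class group
-/

set_option autoImplicit false

open NumberField Module MeasureTheory Set Filter
open scoped nonZeroDivisors Real

namespace Pool.Agent.H9.CF

open Pool.Agent.H31.CN Pool.Agent.H95.CF

/-- **LFN.** -/
theorem pf_LFN (hREP : T_REP) (hEPG : T_EPG) (hSGJ : T_SGJ) (hVK : T_VK) : T_LFN := by
  intro D K _ _ σ Q I α β b f G _ _ cl φ hD hfin hdis hFB hf hRG hPr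
  classical
  obtain ⟨C, V, hRV⟩ := hREP D K σ Q I α β b f G cl hFB hf hRG
  have hD0 : 0 < D := by omega
  have hDR : (0 : ℝ) < D := by exact_mod_cast hD0
  have hG := fun g => hEPG D f (Q (C g)) (V g) hD0 hf (hFB.fd _) (hRV.cop g)
  choose F E hF1 hF2 hF3 hF4 hF5 using hG
  have hN : ∀ c v, v ≠ 0 → 1 ≤ Ideal.absNorm (b c v : Ideal (𝓞 K)) := fun c v _ =>
    Ideal.absNorm_pos_of_nonZeroDivisors _
  have hvC : ∀ c v, v ≠ 0 → ((val (Q c) v : ℤ) : ℂ) =
      ((Ideal.absNorm (b c v : Ideal (𝓞 K)) : ℕ) : ℂ) := by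
    intro c v hv
    rw [← hFB.nrm c v hv, Int.cast_natCast]
  have hvR : ∀ c v, v ≠ 0 → ((val (Q c) v : ℤ) : ℝ) =
      ((Ideal.absNorm (b c v : Ideal (𝓞 K)) : ℕ) : ℝ) := by
    intro c v hv
    rw [← hFB.nrm c v hv, Int.cast_natCast]
  -- the sums over all vectors
  have hall : ∀ (c : ClassGroup (𝓞 K)) (s : ℂ), 1 < s.re → Summable (fun u : ℤ × ℤ =>
      if u = 0 then 0 else ((Ideal.absNorm (b c u : Ideal (𝓞 K)) : ℕ) : ℂ) ^ (-s)) := by
    intro c s hs
    obtain ⟨F', E', -, -, -, h4, -⟩ := hEPG D 1 (Q c) (1, 0) hD0 le_rfl (hFB.fd _)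
      isCoprime_one_left
    refine (h4 s hs).summable.congr fun u => ?_
    by_cases hu : u = 0
    · simp [hu]
    · rw [if_neg hu, if_pos ⟨hu, by simp⟩, hvC c u hu]
  have hsum : ∀ s : ℂ, 1 < s.re →
      HasSum (fun J : (Ideal (𝓞 K))⁰ => (if Pr K f J then ((φ (cl J) : ℂˣ) : ℂ) else 0) *
        (Ideal.absNorm (J : Ideal (𝓞 K)) : ℂ) ^ (-s)) (∑ g, ((φ g : ℂˣ) : ℂ) * F g s) := by
    intro s hs
    have h1 := (hSGJ D K σ Q I α β b f G cl C V φ (fun n => (n : ℂ) ^ (-s))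
      (fun g => 2 * F g s) hD hfin hdis hFB hf hRG hRV hPr (fun c => hall c s hs)
      (fun g => by
        refine (hF4 g s hs).congr_fun fun u => ?_
        by_cases hu : u ≠ 0 ∧ (f : ℤ) ∣ dt (V g) u
        · rw [if_pos hu, if_pos hu, hvC _ u hu.1]
        · rw [if_neg hu, if_neg hu])).1
    have h2 : ∀ g, ((φ g : ℂˣ) : ℂ) * (2 * F g s / 2) = ((φ g : ℂˣ) : ℂ) * F g s := by
      intro g
      ring
    simp only [h2] at h1
    exact h1
  refine ⟨fun s => ∑ g, ((φ g : ℂˣ) : ℂ) * F g s, ⟨?_, hsum⟩, ?_, ?_⟩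
  · exact DifferentiableOn.fun_sum fun g _ => (hF1 g).const_mul _
  · intro hφ
    refine ⟨fun s => ∑ g, ((φ g : ℂˣ) : ℂ) * E g s,
      Differentiable.fun_sum fun g _ => (hF2 g).const_mul _, ?_⟩
    intro s hs
    have h0 : ∑ g, ((φ g : ℂˣ) : ℂ) = 0 := by
      have := sum_hom_units_eq_zero ((Units.coeHom ℂ).comp φ) (by
        intro h
        apply hφ
        ext g
        have h2 := DFunLike.congr_fun h g
        simpa using h2)
      simpa using this
    calc ∑ g, ((φ g : ℂˣ) : ℂ) * F g s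
        = ∑ g, (((φ g : ℂˣ) : ℂ) * E g s + ((φ g : ℂˣ) : ℂ) * Rs ((f : ℝ) ^ 2 * D) s) := by
          refine Finset.sum_congr rfl fun g _ => ?_
          rw [hF3 g s hs]
          ring
      _ = ∑ g, ((φ g : ℂˣ) : ℂ) * E g s := by
          rw [Finset.sum_add_distrib, ← Finset.sum_mul, h0, zero_mul, add_zero]
  · obtain ⟨CV, hCV, hV, -, -, -⟩ := hVK
    have hfR : (0 : ℝ) < f := by exact_mod_cast hf
    have h1 := (hSGJ D K σ Q I α β b f G cl C V φ
      (fun n => ((Vk (n / (f * Real.sqrt D)) / Real.sqrt n : ℝ) : ℂ))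
      (fun g => F g (1 / 2)) hD hfin hdis hFB hf hRG hRV hPr (fun c => by
        have hs2 := (hall c 2 (by norm_num)).norm.mul_left (CV * ((f : ℝ) ^ 2 * D))
        refine Summable.of_norm_bounded hs2 fun u => ?_
        by_cases hu : u = 0
        · simp [hu]
        · rw [if_neg hu, if_neg hu, Complex.norm_real, Real.norm_eq_abs]
          have hn : (1 : ℝ) ≤ ((Ideal.absNorm (b c u : Ideal (𝓞 K)) : ℕ) : ℝ) := by
            exact_mod_cast hN c u hu
          have h3 := Pool.Agent.H16.CN.Vk_bound hCV hV D hDR f hf _ hn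
          refine h3.trans (le_of_eq ?_)
          congr 1
          rw [Complex.norm_natCast_cpow_of_pos (hN c u hu)]
          simp only [Complex.neg_re, Complex.re_ofNat]
          rw [Real.rpow_neg (by positivity)]
          norm_num)
      (fun g => by
        refine (hF5 g).congr_fun fun u => ?_
        by_cases hu : u ≠ 0 ∧ (f : ℤ) ∣ dt (V g) u
        · rw [if_pos hu, if_pos hu, hvR _ u hu.1]
        · rw [if_neg hu, if_neg hu])).1
    have h2 : ∑ g, ((φ g : ℂˣ) : ℂ) * (F g (1 / 2) / 2) =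
        (∑ g, ((φ g : ℂˣ) : ℂ) * F g (1 / 2)) / 2 := by
      rw [Finset.sum_div]
      refine Finset.sum_congr rfl fun g _ => ?_
      ring
    rw [h2] at h1
    exact h1

end Pool.Agent.H9.CF
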